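import Pool.Agent.helper61.Y2.Spec

set_option autoImplicit false

namespace H61.Y2

open H61.Yorioka Cardinal

theorem Y0D_KK_sq (j : ℕ) : KK (j + 1) = KK j ^ 2 := by
  unfold KK
  rw [← pow_mul, pow_succ]

theorem Y0D_le_KK (j : ℕ) : j ≤ KK j := by
  unfold KK
  have h1 : j < 2 ^ j := Nat.lt_two_pow_self
  have h2 : 2 ^ j < 2 ^ 2 ^ j := Nat.lt_two_pow_self
  omega

theorem Y0D_KK_mono {i j : ℕ} (h : i ≤ j) : KK i ≤ KK j := by
  unfold KK
  exact Nat.pow_le_pow_right (by norm_num) (Nat.pow_le_pow_right (by norm_num) h)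

theorem Y0D_fin (T : Set (List Bool)) (n : ℕ) : {t | t ∈ T ∧ t.length < n}.Finite :=
  (List.finite_length_lt Bool n).subset fun _ ht => ht.2

open Classical in
/-- the truncations -/
noncomputable def Y0D_A (f : ℕ → ℕ) (T : Set (List Bool)) (j : ℕ) : Finset (List Bool) :=
  (level (f (KK j))).filter fun s => ∃ t ∈ T, f (KK j) ≤ t.length ∧ t.length < f (KK (j + 1)) ∧ t.take (f (KK j)) = s

open Classical in
theorem Y0D_mem (f : ℕ → ℕ) (T : Set (List Bool)) (j : ℕ) (s : List Bool) : s ∈ Y0D_A f T j ↔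
    s.length = f (KK j) ∧ ∃ t ∈ T, f (KK j) ≤ t.length ∧ t.length < f (KK (j + 1)) ∧ t.take (f (KK j)) = s := by
  unfold Y0D_A
  rw [Finset.mem_filter, mem_level]

theorem Y0D_card (f : ℕ → ℕ) (T : Set (List Bool)) (j : ℕ) : (Y0D_A f T j).card ≤ cn T (f (KK (j + 1))) := by
  have hsub : ((Y0D_A f T j : Finset (List Bool)) : Set (List Bool)) ⊆
      (fun t : List Bool => t.take (f (KK j))) '' {t | t ∈ T ∧ t.length < f (KK (j + 1))} := by
    intro s hs
    have h1 := Finset.mem_coe.1 hs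
    rw [Y0D_mem] at h1
    obtain ⟨-, t, ht, -, h2, h3⟩ := h1
    exact ⟨t, ⟨ht, h2⟩, h3⟩
  have hfin := Y0D_fin T (f (KK (j + 1)))
  calc (Y0D_A f T j).card = ((Y0D_A f T j : Finset (List Bool)) : Set (List Bool)).ncard :=
        (Set.ncard_coe_finset _).symm
    _ ≤ ((fun t : List Bool => t.take (f (KK j))) '' {t | t ∈ T ∧ t.length < f (KK (j + 1))}).ncard :=
        Set.ncard_le_ncard hsub (hfin.image _)
    _ ≤ {t | t ∈ T ∧ t.length < f (KK (j + 1))}.ncard := Set.ncard_image_le hfin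
    _ = cn T (f (KK (j + 1))) := rfl

theorem Y0D : Y0D_stmt := by
  intro f hf T hT
  refine ⟨Y0D_A f T, ⟨?_, ?_⟩, ?_⟩
  · intro j s hs
    rw [Y0D_mem] at hs
    exact hs.1
  · intro k
    obtain ⟨m, hm⟩ := hT (2 * k)
    refine ⟨m, fun j hj => ?_⟩
    have h1 := hm (KK (j + 1)) (by
      have := Y0D_le_KK (j + 1)
      omega)
    rw [Y0D_KK_sq, Nat.mul_comm 2 k, pow_mul] at h1
    have h2 : cn T (f (KK j ^ 2)) ^ k ≤ KK j := (Nat.pow_le_pow_iff_left (by norm_num)).1 h1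
    refine le_trans (Nat.pow_le_pow_left ?_ k) h2
    have h3 := Y0D_card f T j
    rwa [Y0D_KK_sq] at h3
  · intro x hx hfin
    apply hx
    -- bound for the lengths
    obtain ⟨L, hL⟩ : ∃ L : ℕ, ∀ s ∈ {t | t ∈ UN (Y0D_A f T) ∧ IsInit t x}, s.length ≤ L := by
      obtain ⟨L, hL⟩ := (hfin.image List.length).bddAbove
      exact ⟨L, fun s hs => hL ⟨s, hs, rfl⟩⟩
    refine (Y0D_fin T (f (KK 0) + f (KK (L + 1)))).subset ?_
    rintro t ⟨ht, htx⟩
    refine ⟨ht, ?_⟩
    by_contra hcon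
    have hlen : f (KK 0) ≤ t.length := by omega
    have hex : ∃ n, t.length < f (KK (n + 1)) := by
      refine ⟨t.length, ?_⟩
      have h1 : KK (t.length + 1) ≤ f (KK (t.length + 1)) := hf.le_apply
      have h2 := Y0D_le_KK (t.length + 1)
      omega
    classical
    obtain ⟨j, hj1, hj2⟩ : ∃ j, t.length < f (KK (j + 1)) ∧ f (KK j) ≤ t.length := by
      refine ⟨Nat.find hex, Nat.find_spec hex, ?_⟩
      rcases Nat.eq_zero_or_pos (Nat.find hex) with h0 | h0
      · rw [h0]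
        exact hlen
      · have h1 := Nat.find_min hex (m := Nat.find hex - 1) (by omega)
        have h2 : Nat.find hex - 1 + 1 = Nat.find hex := by omega
        rw [h2] at h1
        omega
    have hs : t.take (f (KK j)) ∈ {t | t ∈ UN (Y0D_A f T) ∧ IsInit t x} := by
      refine ⟨⟨j, ?_⟩, IsInit.of_prefix (List.take_prefix _ _) htx⟩
      rw [Y0D_mem]
      refine ⟨?_, t, ht, hj2, hj1, rfl⟩
      rw [List.length_take]
      omega
    have h3 := hL _ hs
    rw [List.length_take] at h3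
    have h4 : f (KK j) ≤ L := by omega
    have h5 : KK j ≤ f (KK j) := hf.le_apply
    have h6 := Y0D_le_KK j
    have h7 : f (KK (j + 1)) ≤ f (KK (L + 1)) := hf.monotone (Y0D_KK_mono (by omega))
    omega

end H61.Y2
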